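import Pool.Agent.N795.ST.Stm

/-!
# ST (helper795), GAIN: growth of the window mass under one transposition
-/

set_option autoImplicit false

namespace Pool.Agent.N795.ST

open Finset Equiv
open Pool.Agent.W805.LR (len cnt)
open Pool.Agent.TH268.PD (mas)
open Pool.Agent.TH268.PD.Drift

namespace N935Gain

variable {V : Type} [Fintype V] [DecidableEq V]

open Classical in
/-- The indicator of the window. -/
noncomputable def f (K K' l : ℝ) : ℝ := (if K ≤ l then 1 else 0) - (if K' ≤ l then 1 else 0)

lemma win_sum (K K' : ℝ) (g : Perm V) :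
    win K K' g = (∑ v, f K K' (len g v)) / Fintype.card V := by
  classical
  unfold win mas f cnt
  rw [sum_sub_distrib, sub_div]

lemma f_le {K K' l : ℝ} (h : K ≤ K') (hl : 0 ≤ l) (hK' : 0 ≤ K') :
    0 ≤ f K K' l ∧ l * f K K' l ≤ K' * (open Classical in if l < K' then 1 else 0) := by
  unfold f
  by_cases h1 : K ≤ l
  · by_cases h2 : K' ≤ l
    · rw [if_pos h1, if_pos h2, if_neg (not_lt.2 h2)]
      constructor <;> simp
    · rw [if_pos h1, if_neg h2, if_pos (not_le.1 h2)]
      constructor
      · norm_num
      · linarith [not_le.1 h2]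
  · have h2 : ¬ K' ≤ l := fun h3 => h1 (h.trans h3)
    rw [if_neg h1, if_neg h2, if_pos (not_le.1 h2)]
    constructor
    · norm_num
    · simp only [sub_self, mul_zero, mul_one]; exact hK'

lemma f_merge {K K' p q : ℝ} (hK : 0 ≤ K) (h : K ≤ K') (hp : 0 ≤ p) (hq : 0 ≤ q) :
    (p + q) * f K K' (p + q) - p * f K K' p - q * f K K' q ≤ 2 * K := by
  have h0 : 0 ≤ K' := hK.trans h
  have fp := (f_le h hp h0).1
  have fq := (f_le h hq h0).1
  by_cases h1 : K ≤ p + q ∧ p + q < K'
  · have e : f K K' (p + q) = 1 := by
      unfold f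
      rw [if_pos h1.1, if_neg (not_le.2 h1.2), sub_zero]
    have hp' : p - p * f K K' p ≤ K := by
      by_cases h2 : K ≤ p
      · have e2 : f K K' p = 1 := by
          unfold f
          rw [if_pos h2, if_neg (not_le.2 (by linarith)), sub_zero]
        rw [e2]
        linarith
      · have := mul_nonneg hp fp
        linarith
    have hq' : q - q * f K K' q ≤ K := by
      by_cases h2 : K ≤ q
      · have e2 : f K K' q = 1 := by
          unfold f
          rw [if_pos h2, if_neg (not_le.2 (by linarith)), sub_zero]
        rw [e2]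
        linarith
      · have := mul_nonneg hq fq
        linarith
    rw [e]
    linarith
  · have e : f K K' (p + q) = 0 := by
      unfold f
      by_cases h2 : K ≤ p + q
      · have h3 : K' ≤ p + q := by
          by_contra h4
          exact h1 ⟨h2, not_le.1 h4⟩
        rw [if_pos h2, if_pos h3, sub_self]
      · have h3 : ¬ K' ≤ p + q := fun h4 => h2 (h.trans h4)
        rw [if_neg h2, if_neg h3, sub_self]
    rw [e]
    have := mul_nonneg hp fp
    have := mul_nonneg hq fq
    linarith

open Classical in
lemma count_lt (K' : ℝ) (hK' : 0 ≤ K') (m : ℕ) :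
    ∑ i ∈ range m, (if 0 < i then (if (i : ℝ) < K' then (1 : ℝ) else 0) else 0) ≤ K' := by
  have h1 : ∑ i ∈ range m, (if 0 < i then (if (i : ℝ) < K' then (1 : ℝ) else 0) else 0) =
      (((range m).filter fun i : ℕ => 0 < i ∧ (i : ℝ) < K').card : ℝ) := by
    rw [card_filter]
    push_cast
    refine sum_congr rfl fun i _ => ?_
    by_cases ha : 0 < i <;> by_cases hb : (i : ℝ) < K' <;> simp [ha, hb]
  rw [h1]
  have h2 : (range m).filter (fun i : ℕ => 0 < i ∧ (i : ℝ) < K') ⊆ Ioo 0 ⌈K'⌉₊ := by
    intro i hi
    obtain ⟨_, h3, h4⟩ := mem_filter.1 hi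
    exact mem_Ioo.2 ⟨h3, Nat.lt_ceil.2 h4⟩
  have h3 := card_le_card h2
  rw [Nat.card_Ioo] at h3
  have h4 := Nat.ceil_lt_add_one hK'
  by_cases h5 : ⌈K'⌉₊ = 0
  · rw [h5] at h3
    have h6 : ((range m).filter fun i : ℕ => 0 < i ∧ (i : ℝ) < K').card = 0 := by omega
    rw [h6]
    simpa using hK'
  · have h6 : ((range m).filter fun i : ℕ => 0 < i ∧ (i : ℝ) < K').card + 1 ≤ ⌈K'⌉₊ := by omega
    have h7 : ((((range m).filter fun i : ℕ => 0 < i ∧ (i : ℝ) < K').card : ℕ) : ℝ) + 1 ≤
        (⌈K'⌉₊ : ℝ) := by exact_mod_cast h6
    linarith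

end N935Gain

open N935Gain in
theorem gain : Gain := by
  intro V _ _ h K K' hK hKK
  classical
  have hK' : 0 ≤ K' := hK.trans hKK
  rcases isEmpty_or_nonempty V with hV | hV
  · simp only [univ_eq_empty, sum_empty]
    positivity
  set N : ℝ := (Fintype.card V : ℝ) with hN
  have hN0 : 0 < N := by rw [hN]; exact_mod_cast Fintype.card_pos
  have hper : ∀ a, ∑ b, max 0 (win K K' (h * swap a b) - win K K' h) ≤
      2 * K + 2 * K' ^ 2 / N := by
    intro a
    have h0 : ∀ b, max 0 (win K K' (h * swap a b) - win K K' h) ≤
        2 * K / N + if h.SameCycle a b then max 0 (win K K' (h * swap a b) - win K K' h) else 0 := by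
      intro b
      by_cases hab : h.SameCycle a b
      · rw [if_pos hab]
        have : 0 ≤ 2 * K / N := by positivity
        linarith
      · rw [if_neg hab, add_zero]
        apply max_le (by positivity)
        rw [win_sum, win_sum, ← sub_div]
        apply div_le_div_of_nonneg_right _ hN0.le
        rw [merge_sum (f K K') h a b hab]
        exact f_merge hK hKK (len_nonneg h a) (len_nonneg h b)
    refine (sum_le_sum fun b _ => h0 b).trans ?_
    rw [sum_add_distrib, sum_const, card_univ, nsmul_eq_mul,
      cyc_sum h a (fun b => max 0 (win K K' (h * swap a b) - win K K' h))]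
    have e1 : (Fintype.card V : ℝ) * (2 * K / N) = 2 * K := by
      rw [← hN]
      field_simp
    rw [e1]
    have hlen : len h a = per h a := len_eq_per h a
    have hDi : ∀ i ∈ range (per h a),
        max 0 (win K K' (h * swap a ((h ^ i) a)) - win K K' h) ≤
        (K' * (if 0 < i then (if (i : ℝ) < K' then (1 : ℝ) else 0) else 0) +
          K' * (if 0 < per h a - i then
            (if ((per h a - i : ℕ) : ℝ) < K' then (1 : ℝ) else 0) else 0)) / N := by
      intro i hi
      have hi' := mem_range.1 hi
      have hs0 : 0 < per h a - i := by omega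
      rw [if_pos hs0]
      rcases Nat.eq_zero_or_pos i with h0 | h0
      · subst h0
        simp only [pow_zero, Perm.coe_one, id_eq, swap_self]
        have : (h * Equiv.refl V : Perm V) = h := by ext; rfl
        rw [this, sub_self, max_self]
        positivity
      · rw [if_pos h0]
        have hne : a ≠ (h ^ i) a := by
          intro h3
          have := pow_inj h a (i := 0) (j := i) (per_pos h a) hi' (by simpa using h3)
          omega
        have hsame : h.SameCycle a ((h ^ i) a) := ⟨(i : ℤ), by rw [zpow_natCast]⟩
        have h1 := split_sum (f K K') h a ((h ^ i) a) hne hsame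
        have h2 := len_split h a i h0 hi'
        have h3 := split_len h a ((h ^ i) a) hne hsame
        rw [h2, hlen] at h3
        have h4 : len (h * swap a ((h ^ i) a)) a = ((per h a - i : ℕ) : ℝ) := by
          rw [Nat.cast_sub hi'.le]
          linarith
        rw [h2, h4] at h1
        set q : ℝ := ((per h a - i : ℕ) : ℝ) with hq
        have hq0 : 0 ≤ q := Nat.cast_nonneg _
        have hi0 : (0 : ℝ) ≤ i := Nat.cast_nonneg _
        have g1 := (f_le hKK hi0 hK').2
        have g2 := (f_le hKK hq0 hK').2
        have g3 := mul_nonneg (add_nonneg hq0 hi0) (f_le hKK (add_nonneg hq0 hi0) hK').1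
        apply max_le (by positivity)
        rw [win_sum, win_sum, ← sub_div]
        apply div_le_div_of_nonneg_right _ hN0.le
        rw [h1]
        linarith
    have hsum : ∑ i ∈ range (per h a),
        max 0 (win K K' (h * swap a ((h ^ i) a)) - win K K' h) ≤ 2 * K' ^ 2 / N := by
      refine (sum_le_sum hDi).trans ?_
      rw [← sum_div]
      apply div_le_div_of_nonneg_right _ hN0.le
      rw [sum_add_distrib, ← mul_sum, ← mul_sum]
      have h1 := count_lt K' hK' (per h a)
      have h2 : ∑ i ∈ range (per h a), (if 0 < per h a - i then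
            (if ((per h a - i : ℕ) : ℝ) < K' then (1 : ℝ) else 0) else 0) ≤ K' := by
        have h3 := count_lt K' hK' (per h a + 1)
        rw [sum_range_succ'] at h3
        simp only [lt_self_iff_false, if_false, add_zero] at h3
        refine le_trans (le_of_eq ?_) h3
        rw [← sum_range_reflect]
        refine sum_congr rfl fun i hi => ?_
        have hi' := mem_range.1 hi
        have : per h a - (per h a - 1 - i) = i + 1 := by omega
        rw [this]
      nlinarith
    linarith
  calc ∑ a, ∑ b, max 0 (win K K' (h * swap a b) - win K K' h)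
      ≤ ∑ _a : V, (2 * K + 2 * K' ^ 2 / N) := sum_le_sum fun a _ => hper a
    _ = 2 * K * N + 2 * K' ^ 2 := by
        rw [sum_const, card_univ, nsmul_eq_mul, ← hN]
        field_simp

end Pool.Agent.N795.ST
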