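import Pool.Agent.N604.MW.Stm12

/-!
# AK/KPAR: the parameters (helper935)
-/

set_option autoImplicit false

namespace Pool.Agent.N935.AK

theorem ineq (m r e : ℕ) (hm : 15 ≤ m) (hr : r ≤ 14) :
    2 * m * (15 * m + r) * (28 + e + 2) + (22 * m + 2 * r + 1) * (15 * m + r + 1) <
      (22 * m + 2 * r + 1) * (2 * m * (28 + e)) := by
  have h1 : (22 * m + 2 * r + 1) * (2 * m * (28 + e)) + (2 * r + 1) * (r + 1) =
      2 * m * (15 * m + r) * (28 + e + 2) + (22 * m + 2 * r + 1) * (15 * m + r + 1) +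
        (2 * m ^ 2 + 19 * m + e * (2 * m * (7 * m + r + 1))) := by
    ring
  have h2 : (2 * r + 1) * (r + 1) ≤ 29 * 15 := Nat.mul_le_mul (by omega) (by omega)
  have h3 : 15 * 15 ≤ m ^ 2 := by
    rw [sq]
    exact Nat.mul_le_mul hm hm
  omega

theorem kpar : Pool.Agent.N604.MW.S_KPAR := by
  intro d s hd hs
  obtain ⟨m, r, hdm, hr, hm⟩ : ∃ m r : ℕ, d + 1 = 15 * m + r ∧ r ≤ 14 ∧ 15 ≤ m :=
    ⟨(d + 1) / 15, (d + 1) % 15, by omega, by omega, by omega⟩
  obtain ⟨e, rfl⟩ : ∃ e, s = d + 1 + (28 + e) := ⟨s - (d + 29), by omega⟩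
  refine ⟨m, by omega, by omega, by omega, by omega, by omega, ?_, by omega⟩
  have e1 : d + 1 + (28 + e) - d + 1 = 28 + e + 2 := by omega
  have e2 : 2 * d + 3 - 8 * m = 22 * m + 2 * r + 1 := by omega
  have e3 : d + 1 + (28 + e) - (d + 1) = 28 + e := by omega
  have e4 : d + 2 = 15 * m + r + 1 := by omega
  rw [e1, e2, e3, e4, hdm]
  exact ineq m r e hm hr

end Pool.Agent.N935.AK
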