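import Pool.Agent.N646.SF.Stm2
import Pool.Agent.N849.SF_SUMP

/-!
# SF-SUMG: the sums of `p` equidistributed sets (adapted from `Pool/Agent/N849/SF_SUMP.lean`)
-/

set_option autoImplicit false

namespace Pool.Agent.N935.SF

open Finset
open Pool.Agent.N646.BX Pool.Agent.N646.SF Pool.Agent.N849.SF

theorem sumsV_succ (p : ℕ) (X : Fin (p + 1) → Finset ℤ) (s : ℤ) :
    ∑ x ∈ X 0, sumsV (fun i : Fin p => X i.succ) (s - x) ≤ sumsV X s := by
  unfold sumsV
  rw [← Finset.card_sigma]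
  refine Finset.card_le_card_of_injOn (fun z => (Fin.cons z.1 z.2 : Fin (p + 1) → ℤ)) ?_ ?_
  · rintro ⟨x, t⟩ hz
    simp only [Finset.coe_sigma, Set.mem_sigma_iff, Finset.mem_coe, Finset.mem_filter,
      Fintype.mem_piFinset] at hz ⊢
    obtain ⟨hx, ht, hs⟩ := hz
    refine ⟨fun i => ?_, ?_⟩
    · refine Fin.cases ?_ (fun j => ?_) i
      · simpa using hx
      · simpa using ht j
    · rw [Fin.sum_univ_succ]
      simp only [Fin.cons_zero, Fin.cons_succ, hs]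
      ring
  · rintro ⟨x, t⟩ _ ⟨x', t'⟩ _ hzz
    have h1 := Fin.cons_inj.1 hzz
    obtain ⟨h2, h3⟩ := h1
    simp only at h2 h3
    subst h2
    subst h3
    rfl

/-- the claim -/
def ClV (p : ℕ) (β ε : ℝ) : Prop :=
  ∃ m₀ : ℕ, 1 ≤ m₀ ∧ ∃ ω c τ : ℝ, 0 < ω ∧ 0 < c ∧ 0 < τ ∧ ∃ n₁ : ℕ, ∀ L : ℕ, n₁ ≤ L →
    ∀ m w : ℕ, 1 ≤ m → m₀ ∣ m → 1 ≤ w → (w : ℝ) ≤ ω * L → ∀ X : Fin p → Finset ℤ,
    (∀ i, X i ⊆ Ico 0 (L : ℤ)) → (∀ i, Equi m w β (X i) L) →
    ∃ (a : ℤ) (T : ℕ), τ * L ≤ T ∧ T ≤ L ∧ (min 1 (p * β) - ε) * T ≤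
        (((Ico a (a + T)).filter (fun s => c * (L : ℝ) ^ (p - 1) ≤ (sumsV X s : ℝ))).card : ℝ)

theorem base (β ε : ℝ) (hβ : 0 < β) (hβ1 : β ≤ 1) (hε : 0 < ε) : ClV 1 β ε := by
  refine ⟨1, le_rfl, ε, 1, 1, hε, one_pos, one_pos, 1, ?_⟩
  intro L hL m w hm _ hw hwL X hX hE
  refine ⟨0, L, by rw [one_mul], le_rfl, ?_⟩
  have h1 := card_ge hβ.le hm hw (hE 0)
  have h2 : (X 0).card ≤ ((Ico (0 : ℤ) (0 + L)).filter
      (fun s => (1 : ℝ) * (L : ℝ) ^ (1 - 1) ≤ (sumsV X s : ℝ))).card := by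
    refine Finset.card_le_card fun x hx => ?_
    rw [Finset.mem_filter, zero_add]
    refine ⟨hX 0 hx, ?_⟩
    rw [Nat.sub_self, pow_zero, mul_one]
    have h3 : 1 ≤ sumsV X x := by
      unfold sumsV
      rw [Nat.one_le_iff_ne_zero, ← Nat.pos_iff_ne_zero, Finset.card_pos]
      refine ⟨fun _ => x, ?_⟩
      rw [Finset.mem_filter, Fintype.mem_piFinset]
      refine ⟨fun i => ?_, by simp⟩
      rw [Subsingleton.elim i 0]
      exact hx
    exact_mod_cast h3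
  have h3 : ((X 0).card : ℝ) ≤ (((Ico (0 : ℤ) (0 + L)).filter
      (fun s => (1 : ℝ) * (L : ℝ) ^ (1 - 1) ≤ (sumsV X s : ℝ))).card : ℝ) := by exact_mod_cast h2
  refine le_trans ?_ (h1.trans h3)
  rw [Nat.cast_one, one_mul, min_eq_right hβ1]
  have hw0 : (0 : ℝ) ≤ w := Nat.cast_nonneg _
  nlinarith

theorem step (hK : S_K2) (p : ℕ) (hp : 1 ≤ p) (β : ℝ) (hβ : 0 < β) (hβ1 : β ≤ 1)
    (ih : ∀ ε : ℝ, 0 < ε → ClV p β ε) (ε : ℝ) (hε : 0 < ε) : ClV (p + 1) β ε := by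
  -- a smaller `ε`
  obtain ⟨ε₁, hε₁, hε₁ε, hε₁β⟩ : ∃ ε₁ : ℝ, 0 < ε₁ ∧ ε₁ ≤ ε ∧ ε₁ ≤ β / 2 :=
    ⟨min ε (β / 2), lt_min hε (by positivity), min_le_left _ _, min_le_right _ _⟩
  obtain ⟨m₁, hm₁, ω₁, c₁, τ₁, hω₁, hc₁, hτ₁, n₁, H1⟩ := ih (ε₁ / 4) (by positivity)
  obtain ⟨s, hs2, hs8⟩ : ∃ s : ℕ, 2 ≤ s ∧ 8 / ε₁ ≤ s :=
    ⟨⌈8 / ε₁⌉₊ + 2, by omega, by
      push_cast
      have := Nat.le_ceil (8 / ε₁)
      linarith⟩
  have hs0 : (0 : ℝ) < s := by
    have : 0 < s := by omega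
    exact_mod_cast this
  have hs2' : 2 / (s : ℝ) ≤ ε₁ / 4 := by
    rw [div_le_iff₀ hs0]
    rw [div_le_iff₀ hε₁] at hs8
    linarith
  obtain ⟨m₂, hm₂, ω₂, c₂, hω₂, hc₂, n₂, H2⟩ := hK β (ε₁ / 4) (β / 2) (1 / (2 * s)) hβ hβ1
    (by positivity) (by positivity) (by positivity)
  refine ⟨m₁ * m₂, Nat.mul_pos hm₁ hm₂, min ω₁ (ω₂ * τ₁), c₁ * c₂ * τ₁, τ₁ / (2 * s),
    lt_min hω₁ (by positivity), by positivity, by positivity,
    max n₁ (max ⌈n₂ / τ₁⌉₊ (max ⌈s / τ₁⌉₊ 1)), ?_⟩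
  intro L hL m w hm hmd hw hwL X hX hE
  have hL1 : n₁ ≤ L := (le_max_left _ _).trans hL
  have hL2 : ⌈n₂ / τ₁⌉₊ ≤ L := (le_max_left _ _).trans ((le_max_right _ _).trans hL)
  have hL3 : ⌈s / τ₁⌉₊ ≤ L :=
    (le_max_left _ _).trans ((le_max_right _ _).trans ((le_max_right _ _).trans hL))
  have hL4 : 1 ≤ L :=
    (le_max_right _ _).trans ((le_max_right _ _).trans ((le_max_right _ _).trans hL))
  have hL0 : (0 : ℝ) < L := by exact_mod_cast hL4
  have hwL1 : (w : ℝ) ≤ ω₁ * L :=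
    hwL.trans (mul_le_mul_of_nonneg_right (min_le_left _ _) hL0.le)
  have hwL2 : (w : ℝ) ≤ ω₂ * τ₁ * L :=
    hwL.trans (mul_le_mul_of_nonneg_right (min_le_right _ _) hL0.le)
  obtain ⟨a, T, hT1, hT2, hD⟩ := H1 L hL1 m w hm ((Nat.dvd_mul_right _ _).trans hmd) hw hwL1
    (fun i : Fin p => X i.succ) (fun i => hX i.succ) (fun i => hE i.succ)
  set D := (Ico a (a + T)).filter
    (fun s => c₁ * (L : ℝ) ^ (p - 1) ≤ (sumsV (fun i : Fin p => X i.succ) s : ℝ)) with hDdef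
  have hT2' : (T : ℝ) ≤ L := by exact_mod_cast hT2
  have hTn₂ : n₂ ≤ T := by
    have h1 : (n₂ : ℝ) / τ₁ ≤ L := (Nat.le_ceil _).trans (by exact_mod_cast hL2)
    rw [div_le_iff₀ hτ₁] at h1
    have h2 : (n₂ : ℝ) ≤ T := by linarith
    exact_mod_cast h2
  have hTs : s ≤ T := by
    have h1 : (s : ℝ) / τ₁ ≤ L := (Nat.le_ceil _).trans (by exact_mod_cast hL3)
    rw [div_le_iff₀ hτ₁] at h1
    have h2 : (s : ℝ) ≤ T := by linarith
    exact_mod_cast h2
  have hT0 : (0 : ℝ) < T := by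
    have : 0 < T := by omega
    exact_mod_cast this
  -- the new length
  set T' : ℕ := T / s with hT'
  have hT'1 : 1 ≤ T' := (Nat.one_le_div_iff (by omega)).2 hTs
  have hT'2 : T' * s ≤ T := Nat.div_mul_le_self T s
  have hT'3 : T < (T' + 1) * s := Nat.lt_mul_of_div_lt (Nat.lt_succ_self _) (by omega)
  have hT'4 : 2 * T' ≤ T := by nlinarith
  have hT'5 : (T : ℝ) / (2 * s) ≤ T' := by
    rw [div_le_iff₀ (by positivity)]
    have h1 : (T : ℝ) < (T' + 1) * s := by exact_mod_cast hT'3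
    have h2 : (1 : ℝ) ≤ T' := by exact_mod_cast hT'1
    nlinarith
  have hT'6 : 2 * (T' : ℝ) ≤ ε₁ / 4 * T := by
    have h1 : (T' : ℝ) * s ≤ T := by exact_mod_cast hT'2
    have h2 : (T' : ℝ) ≤ T / s := by rwa [le_div_iff₀ hs0]
    calc 2 * (T' : ℝ) ≤ 2 * (T / s) := by linarith
      _ = 2 / s * T := by ring
      _ ≤ ε₁ / 4 * T := mul_le_mul_of_nonneg_right hs2' hT0.le
  -- the sets
  set X' := (X 0).filter (fun x => x < (T : ℤ)) with hX'
  have hX'1 : X' ⊆ Ico 0 (T : ℤ) := by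
    intro x hx
    rw [hX', Finset.mem_filter] at hx
    have := hX 0 hx.1
    rw [Finset.mem_Ico] at this ⊢
    exact ⟨this.1, hx.2⟩
  have hE' : Equi m w β X' T := by
    intro u b hu hub
    have hTL : (T : ℤ) ≤ L := by exact_mod_cast hT2
    refine (hE 0 u b hu (hub.trans hTL)).trans (mul_le_mul_of_nonneg_left ?_ (by positivity))
    have h1 : ((X 0).filter (fun x => u ≤ x ∧ x < u + w ∧ x ≡ b [ZMOD m])).card ≤
        (X'.filter (fun x => u ≤ x ∧ x < u + w ∧ x ≡ b [ZMOD m])).card := by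
      refine Finset.card_le_card fun x hx => ?_
      rw [Finset.mem_filter] at hx
      rw [Finset.mem_filter, hX', Finset.mem_filter]
      exact ⟨⟨hx.1, by omega⟩, hx.2⟩
    exact_mod_cast h1
  set Y := (D.filter (fun d => a + 2 * (T' : ℤ) ≤ d)).image (fun d => a + T - 1 - d) with hY
  have hY1 : Y ⊆ Ico 0 ((T : ℤ) - 2 * T') := by
    intro y hy
    rw [hY, Finset.mem_image] at hy
    obtain ⟨d, hd, rfl⟩ := hy
    rw [Finset.mem_filter, hDdef, Finset.mem_filter, Finset.mem_Ico] at hd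
    rw [Finset.mem_Ico]
    omega
  have hYc : (D.card : ℝ) - 2 * T' ≤ Y.card := by
    have h1 : Y.card = (D.filter (fun d => a + 2 * (T' : ℤ) ≤ d)).card := by
      rw [hY]
      refine Finset.card_image_of_injective _ fun d d' hdd => ?_
      have hdd' : a + T - 1 - d = a + T - 1 - d' := hdd
      omega
    have h2 : D.card ≤ (D.filter (fun d => a + 2 * (T' : ℤ) ≤ d)).card + 2 * T' := by
      rw [← Finset.card_filter_add_card_filter_not (s := D) (fun d => a + 2 * (T' : ℤ) ≤ d)]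
      refine Nat.add_le_add_left ?_ _
      have h3 : D.filter (fun d => ¬ a + 2 * (T' : ℤ) ≤ d) ⊆ Ico a (a + 2 * (T' : ℤ)) := by
        intro d hd
        rw [Finset.mem_filter, hDdef, Finset.mem_filter, Finset.mem_Ico] at hd
        rw [Finset.mem_Ico]
        omega
      have h4 := Finset.card_le_card h3
      rw [Int.card_Ico] at h4
      have h5 : (a + 2 * (T' : ℤ) - a).toNat = 2 * T' := by omega
      rwa [h5] at h4
    have h3 : (D.card : ℝ) ≤ (D.filter (fun d => a + 2 * (T' : ℤ) ≤ d)).card + 2 * T' := by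
      exact_mod_cast h2
    rw [h1]
    linarith
  have hmin : β ≤ min 1 ((p : ℝ) * β) := by
    refine le_min hβ1 ?_
    have : (1 : ℝ) ≤ p := by exact_mod_cast hp
    nlinarith
  have hYc2 : (min 1 ((p : ℝ) * β) - ε₁ / 2) * T ≤ Y.card := by
    have := hYc
    nlinarith
  have hYc3 : β / 2 * T ≤ Y.card := by
    refine le_trans (mul_le_mul_of_nonneg_right ?_ hT0.le) hYc2
    linarith
  have hK2 := H2 T T' hTn₂ (by
      calc 1 / (2 * (s : ℝ)) * T = T / (2 * s) := by ring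
        _ ≤ T' := hT'5) hT'4 m w hm ((Nat.dvd_mul_left _ _).trans hmd) hw (by
      refine hwL2.trans ?_
      rw [mul_assoc]
      exact mul_le_mul_of_nonneg_left hT1 hω₂.le) X' Y hX'1 hY1 hYc3 hE'
  refine ⟨a + T - 1, T', ?_, ?_, ?_⟩
  · calc τ₁ / (2 * (s : ℝ)) * L = τ₁ * L / (2 * s) := by ring
      _ ≤ T / (2 * s) := by
        rw [div_le_div_iff_of_pos_right (by positivity)]
        exact hT1
      _ ≤ T' := hT'5
  · omega
  -- the count
  have hT'0 : (0 : ℝ) ≤ T' := Nat.cast_nonneg _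
  have hfin : (min 1 (((p + 1 : ℕ) : ℝ) * β) - ε) * T' ≤
      (min 1 ((Y.card : ℝ) / T + β) - ε₁ / 4) * T' := by
    refine mul_le_mul_of_nonneg_right ?_ hT'0
    have h1 : min 1 ((p : ℝ) * β) - ε₁ / 2 ≤ (Y.card : ℝ) / T := by
      rw [le_div_iff₀ hT0]
      exact hYc2
    have h2 : min 1 (((p + 1 : ℕ) : ℝ) * β) ≤ min 1 ((p : ℝ) * β) + β := by
      push_cast
      rcases le_total 1 ((p : ℝ) * β) with h | h
      · rw [min_eq_left h]
        exact (min_le_left _ _).trans (by linarith)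
      · rw [min_eq_right h]
        exact (min_le_right _ _).trans (by linarith)
    have h3 : min 1 (((p + 1 : ℕ) : ℝ) * β) - ε₁ / 2 ≤ min 1 ((Y.card : ℝ) / T + β) := by
      refine le_min ?_ (by linarith)
      have := min_le_left 1 (((p + 1 : ℕ) : ℝ) * β)
      linarith
    linarith
  refine hfin.trans (hK2.trans ?_)
  have hcard : ((Ico 0 (T' : ℤ)).filter (fun h => c₂ * T ≤ (rep X' Y h : ℝ))).card ≤
      ((Ico (a + T - 1) (a + T - 1 + T')).filter
        (fun s => c₁ * c₂ * τ₁ * (L : ℝ) ^ (p + 1 - 1) ≤ (sumsV X s : ℝ))).card := by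
    refine Finset.card_le_card_of_injOn (fun h => a + T - 1 + h) ?_ ?_
    · intro h hh
      rw [Finset.mem_coe, Finset.mem_filter, Finset.mem_Ico] at hh
      obtain ⟨⟨hh0, hhT⟩, hrep⟩ := hh
      rw [Finset.mem_coe, Finset.mem_filter, Finset.mem_Ico]
      beta_reduce
      refine ⟨by omega, ?_⟩
      have h1 : ∑ y ∈ Y.filter (fun y => y + h ∈ X'), sumsV (fun i : Fin p => X i.succ) (a + T - 1 - y) ≤
          sumsV X (a + T - 1 + h) := by
        refine le_trans ?_ (sumsV_succ p X (a + T - 1 + h))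
        have h2 : ∑ y ∈ Y.filter (fun y => y + h ∈ X'), sumsV (fun i : Fin p => X i.succ) (a + T - 1 - y) =
            ∑ x ∈ (Y.filter (fun y => y + h ∈ X')).image (fun y => y + h),
              sumsV (fun i : Fin p => X i.succ) (a + T - 1 + h - x) := by
          rw [Finset.sum_image fun y _ y' _ hyy => add_right_cancel hyy]
          refine Finset.sum_congr rfl fun y _ => ?_
          congr 1
          ring
        rw [h2]
        refine Finset.sum_le_sum_of_subset fun x hx => ?_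
        rw [Finset.mem_image] at hx
        obtain ⟨y, hy, rfl⟩ := hx
        rw [Finset.mem_filter, hX', Finset.mem_filter] at hy
        exact hy.2.1
      have h2 : (rep X' Y h : ℝ) * (c₁ * (L : ℝ) ^ (p - 1)) ≤
          ((∑ y ∈ Y.filter (fun y => y + h ∈ X'), sumsV (fun i : Fin p => X i.succ) (a + T - 1 - y) : ℕ) : ℝ) := by
        push_cast
        unfold rep
        rw [← nsmul_eq_mul]
        refine Finset.card_nsmul_le_sum _ _ _ fun y hy => ?_
        rw [Finset.mem_filter, hY, Finset.mem_image] at hy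
        obtain ⟨⟨d, hd, hdy⟩, -⟩ := hy
        rw [Finset.mem_filter, hDdef, Finset.mem_filter] at hd
        have h3 : a + T - 1 - y = d := by rw [← hdy]; ring
        rw [h3]
        exact hd.1.2
      have h3 : c₁ * c₂ * τ₁ * (L : ℝ) ^ (p + 1 - 1) ≤
          (rep X' Y h : ℝ) * (c₁ * (L : ℝ) ^ (p - 1)) := by
        have h4 : (L : ℝ) ^ (p + 1 - 1) = L * (L : ℝ) ^ (p - 1) := by
          rw [← pow_succ']
          congr 1
          omega
        rw [h4]
        calc c₁ * c₂ * τ₁ * (L * (L : ℝ) ^ (p - 1)) =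
              (c₂ * (τ₁ * L)) * (c₁ * (L : ℝ) ^ (p - 1)) := by ring
          _ ≤ (c₂ * T) * (c₁ * (L : ℝ) ^ (p - 1)) := by
              refine mul_le_mul_of_nonneg_right ?_ (by positivity)
              exact mul_le_mul_of_nonneg_left hT1 hc₂.le
          _ ≤ (rep X' Y h : ℝ) * (c₁ * (L : ℝ) ^ (p - 1)) :=
              mul_le_mul_of_nonneg_right hrep (by positivity)
      refine h3.trans (h2.trans ?_)
      exact_mod_cast h1
    · intro h _ h' _ hhh
      have hhh' : a + T - 1 + h = a + T - 1 + h' := hhh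
      omega
  exact_mod_cast hcard

theorem main (h : Pool.Agent.N646.BX.S_K2) : Pool.Agent.N646.SF.S_SUMG := by
  intro p β ε hp hβ hβ1 hε
  have : ∀ p : ℕ, 1 ≤ p → ∀ ε : ℝ, 0 < ε → ClV p β ε := by
    intro p hp
    induction p, hp using Nat.le_induction with
    | base => exact fun ε hε => base β ε hβ hβ1 hε
    | succ p hp ih => exact fun ε hε => step h p hp β hβ hβ1 ih ε hε
  exact this p hp ε hε

end Pool.Agent.N935.SF
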