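import Mathlib
import Pool.Agent.N964.GX.Stm2
import Pool.Agent.N669.GXJ

set_option autoImplicit false

/-!
# Project GX, part Q0: the Dirichlet inverse of the coefficients of an L-function
-/

namespace Pool.Agent.N935.GXInv

open Complex
open Pool.Agent.N964.GX Pool.Agent.N669.GX
open Y767.WH (GoodH)
open scoped ArithmeticFunction.vonMangoldt ArithmeticFunction.zeta

/-- the logarithm with complex values -/
noncomputable def lg : ArithmeticFunction ℂ := ⟨fun n => ((Real.log n : ℝ) : ℂ), by simp⟩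

/-- the arithmetic function with the given values -/
def af (f : ℕ → ℂ) : ArithmeticFunction ℂ := ⟨fun n => if n = 0 then 0 else f n, if_pos rfl⟩

theorem af_apply (f : ℕ → ℂ) {n : ℕ} (hn : n ≠ 0) : af f n = f n := if_neg hn

theorem pmul_lg_mul (f g : ArithmeticFunction ℂ) :
    (f * g).pmul lg = f.pmul lg * g + f * g.pmul lg := by
  ext n
  simp only [ArithmeticFunction.pmul_apply, ArithmeticFunction.mul_apply,
    ArithmeticFunction.add_apply]
  rw [Finset.sum_mul, ← Finset.sum_add_distrib]
  refine Finset.sum_congr rfl ?_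
  rintro ⟨d, e⟩ h
  rw [Nat.mem_divisorsAntidiagonal] at h
  obtain ⟨h1, h2⟩ := h
  simp only at h1
  have hd : (d : ℝ) ≠ 0 := by
    rintro h0
    apply h2
    rw [← h1, Nat.cast_eq_zero.1 h0, zero_mul]
  have he : (e : ℝ) ≠ 0 := by
    rintro h0
    apply h2
    rw [← h1, Nat.cast_eq_zero.1 h0, mul_zero]
  have h3 : Real.log (n : ℝ) = Real.log d + Real.log e := by
    rw [← h1, Nat.cast_mul, Real.log_mul hd he]
  have h4 : lg n = lg d + lg e := by
    show ((Real.log n : ℝ) : ℂ) = ((Real.log d : ℝ) : ℂ) + ((Real.log e : ℝ) : ℂ)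
    rw [h3]
    push_cast
    ring
  rw [h4]
  ring

/-- the recursion for the coefficients -/
theorem rec_lam {k : ℕ} {A : ℝ} {lc : ℝ → ℝ} {F : ℂ → ℂ} {a lam : ℕ → ℂ}
    (hG : GoodH k A lc F a) (hram : ∀ n : ℕ, ‖a n‖ ≤ k * ArithmeticFunction.vonMangoldt n)
    (hsum : ∀ s : ℂ, 1 < s.re → LSeriesSummable lam s)
    (hF : ∀ s : ℂ, 1 < s.re → F s = LSeries lam s) :
    ∀ n : ℕ, n ≠ 0 → ((Real.log n : ℝ) : ℂ) * lam n =
      ∑ p ∈ n.divisorsAntidiagonal, a p.1 * lam p.2 := by
  have ha0 : a 0 = 0 := hG.ha1 0 (by norm_num)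
  have key : ∀ s : ℂ, 1 < s.re → 1 ≤ s.im →
      LSeries (LSeries.logMul lam - LSeries.convolution a lam) s = 0 := by
    intro s hs1 hs2
    have hab := abs_lt lam hsum hs1
    have hB : HasDerivAt (LSeries lam) (-LSeries (LSeries.logMul lam) s) s := LSeries_hasDerivAt hab
    have hFd : deriv F s = -LSeries (LSeries.logMul lam) s := by
      have hev : F =ᶠ[nhds s] LSeries lam := by
        have hopen : IsOpen {z : ℂ | 1 < z.re} := isOpen_lt continuous_const Complex.continuous_re
        filter_upwards [hopen.mem_nhds hs1] with z hz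
        exact hF z hz
      exact (hB.congr_of_eventuallyEq hev).deriv
    have hF0 : F s ≠ 0 := hG.nzr s hs1.le hs2
    have hld := hG.ld s hs1 hs2
    rw [tsum_a a ha0] at hld
    have hld' : deriv F s = - LSeries a s * F s := by
      rw [← hld]; field_simp
    have hsa := summable_a k a hram hs1
    have hsb := hsum s hs1
    have hconv : LSeries (LSeries.convolution a lam) s = LSeries a s * LSeries lam s := LSeries_convolution' hsa hsb
    rw [LSeries_sub (LSeriesSummable_logMul_of_lt_re hab) (hsa.convolution hsb), hconv]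
    rw [hld', hF s hs1] at hFd
    linear_combination hFd
  set c : ℕ → ℂ := LSeries.logMul lam - LSeries.convolution a lam with hc
  set c' : ℕ → ℂ := fun n => c n / (n : ℂ) ^ (2 * I) with hc'
  have hterm : ∀ (x : ℝ) (n : ℕ), LSeries.term c' x n = LSeries.term c (x + 2 * I) n := by
    intro x n
    rcases eq_or_ne n 0 with rfl | hn
    · simp
    · rw [LSeries.term_of_ne_zero hn, LSeries.term_of_ne_zero hn,
        Complex.cpow_add _ _ (Nat.cast_ne_zero.2 hn), hc']
      simp only
      rw [div_div, mul_comm]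
  have hL : ∀ x : ℝ, LSeries c' x = LSeries c (x + 2 * I) := by
    intro x
    unfold LSeries
    exact tsum_congr (hterm x)
  have hev : (fun x : ℝ => LSeries c' x) =ᶠ[Filter.atTop] 0 := by
    filter_upwards [Filter.eventually_gt_atTop 1] with x hx
    rw [hL x]
    exact key _ (by simpa using hx) (by simp)
  rcases LSeries_eventually_eq_zero_iff'.1 hev with h0 | h0
  · intro n hn
    have h1 := h0 n hn
    have h2 : c n = 0 := by
      rw [hc'] at h1
      simp only [div_eq_zero_iff] at h1
      rcases h1 with h1 | h1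
      · exact h1
      · exfalso
        rw [Complex.cpow_eq_zero_iff] at h1
        exact hn (by exact_mod_cast h1.1)
    rw [hc] at h2
    simp only [Pi.sub_apply, LSeries.logMul, LSeries.convolution_def] at h2
    rw [← Complex.natCast_log] at *
    linear_combination h2
  · exfalso
    have hs : LSeriesSummable c' ((2 : ℝ) : ℂ) := by
      unfold LSeriesSummable
      have h1 : (LSeries.term c' ((2 : ℝ) : ℂ)) = LSeries.term c ((2 : ℝ) + 2 * I) :=
        funext (hterm 2)
      rw [h1]
      have h2 : 1 < (((2 : ℝ) : ℂ) + 2 * I).re := by simp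
      exact (LSeriesSummable_logMul_of_lt_re (abs_lt lam hsum h2)).sub
        ((summable_a k a hram h2).convolution (hsum _ h2))
    have := hs.abscissaOfAbsConv_le
    rw [h0] at this
    exact absurd this (by simp)

/-- convolution as a sum over pairs -/
theorem isInv_pairs {lam b : ℕ → ℂ} (h : IsInv lam b) {n : ℕ} (hn : n ≠ 0) :
    ∑ p ∈ n.divisorsAntidiagonal, lam p.1 * b p.2 = if n = 1 then 1 else 0 := by
  rw [Nat.sum_divisorsAntidiagonal (fun x y => lam x * b y)]
  exact h n (Nat.one_le_iff_ne_zero.2 hn)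

theorem af_mul_apply (f g : ℕ → ℂ) (n : ℕ) :
    (af f * af g) n = ∑ p ∈ n.divisorsAntidiagonal, f p.1 * g p.2 := by
  rw [ArithmeticFunction.mul_apply]
  refine Finset.sum_congr rfl fun p hp => ?_
  rw [Nat.mem_divisorsAntidiagonal] at hp
  have hp1 : p.1 ≠ 0 := by
    rintro h0; apply hp.2; rw [← hp.1, h0, zero_mul]
  have hp2 : p.2 ≠ 0 := by
    rintro h0; apply hp.2; rw [← hp.1, h0, mul_zero]
  rw [af_apply f hp1, af_apply g hp2]

theorem rec_b {a lam b : ℕ → ℂ} (hlam : ∀ n : ℕ, n ≠ 0 → ((Real.log n : ℝ) : ℂ) * lam n =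
      ∑ p ∈ n.divisorsAntidiagonal, a p.1 * lam p.2) (hb : IsInv lam b) :
    ∀ n : ℕ, n ≠ 0 → ((Real.log n : ℝ) : ℂ) * b n =
      - ∑ p ∈ n.divisorsAntidiagonal, a p.1 * b p.2 := by
  have h1 : af lam * af b = 1 := by
    ext n
    rcases eq_or_ne n 0 with rfl | hn
    · simp
    · rw [af_mul_apply, isInv_pairs hb hn, ArithmeticFunction.one_apply]
  have h2 : (af lam).pmul lg = af a * af lam := by
    ext n
    rcases eq_or_ne n 0 with rfl | hn
    · simp
    · rw [af_mul_apply, ArithmeticFunction.pmul_apply, af_apply lam hn, ← hlam n hn, mul_comm]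
      rfl
  have h3 : ((1 : ArithmeticFunction ℂ)).pmul lg = 0 := by
    ext n
    rw [ArithmeticFunction.pmul_apply, ArithmeticFunction.one_apply]
    rcases eq_or_ne n 1 with rfl | hn
    · simp [lg]
    · simp [hn]
  have h4 := pmul_lg_mul (af lam) (af b)
  rw [h1, h2, h3] at h4
  have h5 : (af b).pmul lg = - (af a * af b) := by
    have h6 : (af b).pmul lg = (af lam * af b) * (af b).pmul lg := by rw [h1, one_mul]
    have h7 : (af lam * af b) * (af b).pmul lg = af b * (af lam * (af b).pmul lg) := by ring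
    have h8 : af lam * (af b).pmul lg = - (af a * af lam * af b) := by
      have := h4.symm
      rw [add_comm] at this
      exact eq_neg_of_add_eq_zero_left this
    rw [h6, h7, h8]
    have h9 : af b * -(af a * af lam * af b) = - (af a * af b) * (af lam * af b) := by ring
    rw [h9, h1, mul_one]
  intro n hn
  have h6 := congrArg (fun f : ArithmeticFunction ℂ => f n) h5
  simp only [ArithmeticFunction.pmul_apply] at h6
  have h7 : (-(af a * af b)) n = - (af a * af b) n := rfl
  rw [h7, af_mul_apply, af_apply b hn] at h6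
  rw [← h6, mul_comm]
  rfl

theorem summable_b {k : ℕ} (hk : 1 ≤ k) {b : ℕ → ℂ} {B : ℝ} (hB : 0 ≤ B)
    (hb : ∀ n : ℕ, 1 ≤ n → ‖b n‖ ≤ B * (Z ^ k) n) {s : ℂ} (hs : 1 < s.re) :
    LSeriesSummable b s := by
  have hk' : (0 : ℝ) < k := by exact_mod_cast hk
  set ε : ℝ := (s.re - 1) / 2 with hε
  have hε0 : 0 < ε := by rw [hε]; linarith
  obtain ⟨C, hC1, hC⟩ := @Pool.Agent.H373R2.T4.DivB.div_bound (ε / k) (by positivity)
  refine LSeriesSummable_of_le_const_mul_rpow (x := 1 + ε) (by rw [hε]; linarith)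
    ⟨B * C ^ k, fun n hn => ?_⟩
  have h1 := hb n (Nat.one_le_iff_ne_zero.2 hn)
  have h2 := Z_pow_le k n
  have h3 := hC n (by omega)
  have hn0 : (0 : ℝ) < n := by exact_mod_cast Nat.pos_of_ne_zero hn
  calc ‖b n‖ ≤ B * (Z ^ k) n := h1
    _ ≤ B * (n.divisors.card : ℝ) ^ k := by gcongr
    _ ≤ B * (C * (n : ℝ) ^ (ε / k : ℝ)) ^ k := by gcongr
    _ = B * (C ^ k * (n : ℝ) ^ ε) := by
        rw [mul_pow, ← Real.rpow_natCast ((n : ℝ) ^ (ε / k : ℝ)) k, ← Real.rpow_mul hn0.le]
        congr 3
        field_simp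
    _ = B * C ^ k * (n : ℝ) ^ (1 + ε - 1) := by
        rw [show (1 + ε - 1) = ε by ring]; ring

/-- (GX/Q0) the inverse of the coefficients of an L-function -/
theorem inv : S_inv := by
  intro k A lc F a lam b hk hG hram hlam1 hsum hF hb
  have h1 := rec_b (rec_lam hG hram hsum hF) hb
  have h2 := rec_bound k a b hram h1
  have h3 : ∀ s : ℂ, 1 < s.re → LSeriesSummable b s := fun s hs =>
    summable_b hk (norm_nonneg (b 1)) h2 hs
  refine ⟨h3, fun s hs => ?_⟩
  have h4 : LSeries (LSeries.convolution lam b) s = LSeries lam s * LSeries b s :=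
    LSeries_convolution' (hsum s hs) (h3 s hs)
  rw [hF s hs, ← h4]
  have h5 : LSeries (LSeries.convolution lam b) s = LSeries LSeries.delta s := by
    refine LSeries_congr (fun {n} hn => ?_) s
    rw [LSeries.convolution_def]
    exact isInv_pairs hb hn
  rw [h5, LSeries_delta]
  rfl

/-- the inverse -/
noncomputable def binv (lam : ℕ → ℂ) : ℕ → ℂ
  | n => if n = 0 then 0 else if n = 1 then 1 else
      - ∑ d : n.properDivisors, lam (n / (d : ℕ)) * binv lam (d : ℕ)
termination_by n => n
decreasing_by exact (Nat.mem_properDivisors.1 d.2).2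

/-- (GX/Q0) the inverse exists -/
theorem invex : S_invex := by
  intro lam h1
  refine ⟨binv lam, by rw [binv, if_pos rfl], fun n hn => ?_⟩
  have hn0 : n ≠ 0 := by omega
  have e1 : ∑ d ∈ n.divisors, lam d * binv lam (n / d) =
      ∑ d ∈ n.divisors, lam (n / d) * binv lam d := by
    rw [← Nat.sum_div_divisors n (fun e => lam (n / e) * binv lam e)]
    refine Finset.sum_congr rfl fun d hd => ?_
    rw [Nat.div_div_self (Nat.dvd_of_mem_divisors hd) hn0]
  rw [e1, ← Nat.insert_self_properDivisors hn0, Finset.sum_insert Nat.self_notMem_properDivisors,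
    Nat.div_self (Nat.pos_of_ne_zero hn0), h1, one_mul]
  rcases eq_or_ne n 1 with rfl | hn1
  · rw [binv, if_neg (by norm_num), if_pos rfl]
    simp
  · rw [binv, if_neg hn0, if_neg hn1, if_neg hn1,
      Finset.sum_coe_sort n.properDivisors (fun d => lam (n / d) * binv lam d)]
    ring

end Pool.Agent.N935.GXInv
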