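import Pool.Agent.N979.P1.Stm
import Pool.Agent.N615.FB_ZF

/-!
# P1/ZF1: the value of `zf 1 1` (helper935)
-/

set_option autoImplicit false

open MeasureTheory Metric Set Filter Topology

namespace Pool.Agent.N935.P1ZF1

open Pool.Agent.H241R3.FV Pool.Agent.N526.CP

theorem J1 : MOM.J 1 0 = Real.pi := by
  unfold MOM.J
  simp

theorem int1 : ∫ t in (0 : ℝ)..Real.pi, (Real.pi / 2 - t) * Real.cos t = 2 := by
  have h : ∀ t ∈ uIcc (0 : ℝ) Real.pi,
      HasDerivAt (fun t => (Real.pi / 2 - t) * Real.sin t - Real.cos t)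
        ((Real.pi / 2 - t) * Real.cos t) t := by
    intro t _
    have h1 : HasDerivAt (fun t : ℝ => Real.pi / 2 - t) (-1) t := by
      simpa using (hasDerivAt_id t).const_sub (Real.pi / 2)
    have h2 := (h1.mul (Real.hasDerivAt_sin t)).sub (Real.hasDerivAt_cos t)
    refine h2.congr_deriv ?_
    ring
  rw [intervalIntegral.integral_eq_sub_of_hasDerivAt h
    (Continuous.intervalIntegrable (by fun_prop) _ _)]
  simp
  norm_num

theorem main : Pool.Agent.N979.P1.S_ZF1 := by
  show zf 1 1 = 2 / Real.pi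
  unfold zf
  rw [Pool.Agent.N615.FB.coordf 1 le_rfl (fun u => Real.arcsin (1 * u) * u) (by fun_prop), J1]
  congr 1
  rw [← int1]
  refine intervalIntegral.integral_congr fun t ht => ?_
  rw [uIcc_of_le Real.pi_pos.le] at ht
  simp only [Nat.sub_self, pow_zero, mul_one, one_mul]
  rw [Real.arcsin_eq_pi_div_two_sub_arccos, Real.arccos_cos ht.1 ht.2]

end Pool.Agent.N935.P1ZF1
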